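import Pool.Agent.H242.GX.Stm

/-! GX-FLATEXT: a flat function of `(φ, w)`, `y = exp (2 w)`, extends by zero. -/

set_option autoImplicit false

open Set Filter Topology
open scoped ContDiff

namespace Pool.Agent.H383.GX

open Pool.Agent.H242.GX

/-- the half plane `x.2 < w₀` -/
def HP (w₀ : ℝ) : Set (ℝ × ℝ) := {x | x.2 < w₀}

theorem isOpen_HP (w₀ : ℝ) : IsOpen (HP w₀) := isOpen_lt continuous_snd continuous_const

/-- flat smooth functions on a half plane -/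
def Cls {E : Type} [NormedAddCommGroup E] [NormedSpace ℝ E] (w₀ : ℝ) (f : ℝ × ℝ → E) : Prop :=
  ContDiffOn ℝ ∞ f (HP w₀) ∧
  ∀ (i N : ℕ), ∃ C : ℝ, ∀ x ∈ HP w₀, ‖iteratedFDeriv ℝ i f x‖ ≤ C * Real.exp (N * x.2)

section

variable {E G : Type} [NormedAddCommGroup E] [NormedSpace ℝ E] [NormedAddCommGroup G]
  [NormedSpace ℝ G] {w₀ : ℝ}

theorem Cls.at {f : ℝ × ℝ → E} (h : Cls w₀ f) {x : ℝ × ℝ} (hx : x ∈ HP w₀) :
    ContDiffAt ℝ ∞ f x := (h.1 x hx).contDiffAt ((isOpen_HP w₀).mem_nhds hx)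

theorem Cls.fderiv {f : ℝ × ℝ → E} (h : Cls w₀ f) : Cls w₀ (fderiv ℝ f) := by
  refine ⟨h.1.fderiv_of_isOpen (isOpen_HP w₀) (by simp), fun i N => ?_⟩
  obtain ⟨C, hC⟩ := h.2 (i + 1) N
  exact ⟨C, fun x hx => by rw [norm_iteratedFDeriv_fderiv]; exact hC x hx⟩

theorem Cls.clm {f : ℝ × ℝ → E} (h : Cls w₀ f) (L : E →L[ℝ] G) : Cls w₀ (fun x => L (f x)) := by
  refine ⟨L.contDiff.comp_contDiffOn h.1, fun i N => ?_⟩
  obtain ⟨C, hC⟩ := h.2 i N
  refine ⟨‖L‖ * C, fun x hx => ?_⟩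
  have h1 : iteratedFDeriv ℝ i (L ∘ f) x =
      L.compContinuousMultilinearMap (iteratedFDeriv ℝ i f x) :=
    L.iteratedFDeriv_comp_left (n := ∞) (h.at hx) (by exact_mod_cast le_top)
  show ‖iteratedFDeriv ℝ i (L ∘ f) x‖ ≤ _
  rw [h1, mul_assoc]
  exact (L.norm_compContinuousMultilinearMap_le _).trans
    (mul_le_mul_of_nonneg_left (hC x hx) (norm_nonneg _))

theorem Cls.add {f g : ℝ × ℝ → E} (hf : Cls w₀ f) (hg : Cls w₀ g) :
    Cls w₀ (fun x => f x + g x) := by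
  refine ⟨hf.1.add hg.1, fun i N => ?_⟩
  obtain ⟨C, hC⟩ := hf.2 i N
  obtain ⟨C', hC'⟩ := hg.2 i N
  refine ⟨C + C', fun x hx => ?_⟩
  have h1 : iteratedFDeriv ℝ i (f + g) x = iteratedFDeriv ℝ i f x + iteratedFDeriv ℝ i g x :=
    iteratedFDeriv_add_apply ((hf.at hx).of_le (by exact_mod_cast le_top))
      ((hg.at hx).of_le (by exact_mod_cast le_top))
  show ‖iteratedFDeriv ℝ i (f + g) x‖ ≤ _
  rw [h1, add_mul]
  exact (norm_add_le _ _).trans (add_le_add (hC x hx) (hC' x hx))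

/-- the function `exp (-2 x.2)` -/
noncomputable def ex (x : ℝ × ℝ) : ℝ := Real.exp (-2 * x.2)

/-- the linear form -/
noncomputable def lf : ℝ × ℝ →L[ℝ] ℝ := (-2 : ℝ) • ContinuousLinearMap.snd ℝ ℝ ℝ

theorem ex_eq : ex = Real.exp ∘ lf := by
  funext x
  simp only [ex, lf, Function.comp_apply, ContinuousLinearMap.smul_apply,
    ContinuousLinearMap.coe_snd', smul_eq_mul]

theorem ex_smooth : ContDiff ℝ ∞ ex := by
  rw [ex_eq]
  exact Real.contDiff_exp.comp lf.contDiff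

theorem ex_bd (i : ℕ) (x : ℝ × ℝ) : ‖iteratedFDeriv ℝ i ex x‖ ≤ ‖lf‖ ^ i * Real.exp (-2 * x.2) := by
  rw [ex_eq, lf.iteratedFDeriv_comp_right (n := ∞) Real.contDiff_exp x (by exact_mod_cast le_top)]
  refine (ContinuousMultilinearMap.norm_compContinuousLinearMap_le _ _).trans ?_
  rw [Finset.prod_const, Finset.card_univ, Fintype.card_fin, norm_iteratedFDeriv_eq_norm_iteratedDeriv,
    iteratedDeriv_eq_iterate, Real.iter_deriv_exp, mul_comm, Real.norm_of_nonneg (Real.exp_pos _).le]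
  refine le_of_eq ?_
  simp only [lf, ContinuousLinearMap.smul_apply, ContinuousLinearMap.coe_snd', smul_eq_mul]

theorem Cls.exmul {f : ℝ × ℝ → E} (h : Cls w₀ f) : Cls w₀ (fun x => ex x • f x) := by
  refine ⟨ex_smooth.contDiffOn.smul h.1, fun i N => ?_⟩
  choose C hC using fun j => h.2 j (N + 2)
  refine ⟨∑ j ∈ Finset.range (i + 1), (i.choose j : ℝ) * ‖lf‖ ^ j * |C (i - j)|, fun x hx => ?_⟩
  have hu : UniqueDiffOn ℝ (HP w₀) := (isOpen_HP w₀).uniqueDiffOn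
  rw [← iteratedFDerivWithin_of_isOpen i (isOpen_HP w₀) hx]
  refine (norm_iteratedFDerivWithin_smul_le (N := ∞) ex_smooth.contDiffOn h.1 hu hx
    (by exact_mod_cast le_top)).trans ?_
  rw [Finset.sum_mul]
  refine Finset.sum_le_sum fun j _ => ?_
  rw [iteratedFDerivWithin_of_isOpen j (isOpen_HP w₀) hx,
    iteratedFDerivWithin_of_isOpen (i - j) (isOpen_HP w₀) hx]
  have h1 := ex_bd j x
  have h2 : ‖iteratedFDeriv ℝ (i - j) f x‖ ≤ |C (i - j)| * Real.exp (((N + 2 : ℕ) : ℝ) * x.2) :=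
    (hC (i - j) x hx).trans (mul_le_mul_of_nonneg_right (le_abs_self _) (Real.exp_pos _).le)
  have h3 : Real.exp (-2 * x.2) * Real.exp (((N + 2 : ℕ) : ℝ) * x.2) = Real.exp (N * x.2) := by
    rw [← Real.exp_add]
    congr 1
    push_cast
    ring
  calc (i.choose j : ℝ) * ‖iteratedFDeriv ℝ j ex x‖ * ‖iteratedFDeriv ℝ (i - j) f x‖
      ≤ (i.choose j : ℝ) * (‖lf‖ ^ j * Real.exp (-2 * x.2)) *
        (|C (i - j)| * Real.exp (((N + 2 : ℕ) : ℝ) * x.2)) := by gcongr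
    _ = (i.choose j : ℝ) * ‖lf‖ ^ j * |C (i - j)| *
        (Real.exp (-2 * x.2) * Real.exp (((N + 2 : ℕ) : ℝ) * x.2)) := by ring
    _ = _ := by rw [h3]

/-- the linear map `(a, b) ↦ (a, 0)` -/
noncomputable def A0 : ℝ × ℝ →L[ℝ] ℝ × ℝ :=
  (ContinuousLinearMap.fst ℝ ℝ ℝ).prod (0 : ℝ × ℝ →L[ℝ] ℝ)

/-- the linear map `(a, b) ↦ (0, b / 2)` -/
noncomputable def A1 : ℝ × ℝ →L[ℝ] ℝ × ℝ :=
  (0 : ℝ × ℝ →L[ℝ] ℝ).prod ((1 / 2 : ℝ) • ContinuousLinearMap.snd ℝ ℝ ℝ)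

/-- the derivative in the other coordinates -/
noncomputable def Gd (f : ℝ × ℝ → E) (x : ℝ × ℝ) : ℝ × ℝ →L[ℝ] E :=
  (fderiv ℝ f x).comp A0 + ex x • (fderiv ℝ f x).comp A1

theorem Cls.Gd {f : ℝ × ℝ → E} (h : Cls w₀ f) : Cls w₀ (Gd f) :=
  (h.fderiv.clm ((ContinuousLinearMap.compL ℝ (ℝ × ℝ) (ℝ × ℝ) E).flip A0)).add
    (h.fderiv.clm ((ContinuousLinearMap.compL ℝ (ℝ × ℝ) (ℝ × ℝ) E).flip A1)).exmul

/-- the extension by zero -/
noncomputable def Ext (f : ℝ × ℝ → E) (x : ℝ × ℝ) : E :=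
  if 0 < x.2 then f (x.1, Real.log x.2 / 2) else 0

theorem Ext_hasFDerivAt {f : ℝ × ℝ → E} (h : Cls w₀ f) {x : ℝ × ℝ}
    (hx : x ∈ HP (Real.exp (2 * w₀))) : HasFDerivAt (Ext f) (Ext (Gd f) x) x := by
  rcases lt_trichotomy x.2 0 with hx0 | hx0 | hx0
  · -- below the axis
    have h1 : Ext f =ᶠ[𝓝 x] fun _ => (0 : E) := by
      filter_upwards [(isOpen_lt continuous_snd continuous_const).mem_nhds hx0] with z hz
      have hz' : z.2 < 0 := hz
      unfold Ext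
      rw [if_neg (not_lt.2 hz'.le)]
    have h2 : Ext (GX.Gd f) x = 0 := by
      unfold Ext
      rw [if_neg (not_lt.2 hx0.le)]
    rw [h2]
    exact (hasFDerivAt_const (0 : E) x).congr_of_eventuallyEq h1
  · -- on the axis
    have h2 : Ext (GX.Gd f) x = 0 := by
      unfold Ext
      rw [if_neg (by rw [hx0]; exact lt_irrefl _)]
    have h3 : Ext f x = 0 := by
      unfold Ext
      rw [if_neg (by rw [hx0]; exact lt_irrefl _)]
    rw [h2]
    obtain ⟨C, hC⟩ := h.2 0 4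
    have hb : ∀ᶠ z in 𝓝 x, ‖Ext f z‖ ≤ |C| * ‖z - x‖ ^ 2 := by
      filter_upwards [(isOpen_HP (Real.exp (2 * w₀))).mem_nhds hx] with z hz
      have hz' : z.2 < Real.exp (2 * w₀) := hz
      unfold Ext
      split_ifs with hz0
      · have hlog : Real.log z.2 / 2 < w₀ := by
          have := (Real.log_lt_iff_lt_exp hz0).2 hz'
          linarith
        have h4 := hC (z.1, Real.log z.2 / 2) hlog
        rw [norm_iteratedFDeriv_zero] at h4
        have h5 : Real.exp (((4 : ℕ) : ℝ) * (Real.log z.2 / 2)) = z.2 ^ 2 := by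
          have : ((4 : ℕ) : ℝ) * (Real.log z.2 / 2) = ((2 : ℕ) : ℝ) * Real.log z.2 := by
            push_cast
            ring
          rw [this, Real.exp_nat_mul, Real.exp_log hz0]
        rw [show ((z.1, Real.log z.2 / 2) : ℝ × ℝ).2 = Real.log z.2 / 2 from rfl, h5] at h4
        have h6 : |z.2| ≤ ‖z - x‖ := by
          have := norm_snd_le (z - x)
          rw [Prod.snd_sub, hx0, sub_zero, Real.norm_eq_abs] at this
          exact this
        have h7 : z.2 ^ 2 ≤ ‖z - x‖ ^ 2 := by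
          rw [← sq_abs z.2]
          exact pow_le_pow_left₀ (abs_nonneg _) h6 2
        calc ‖f (z.1, Real.log z.2 / 2)‖ ≤ C * z.2 ^ 2 := h4
          _ ≤ |C| * z.2 ^ 2 := mul_le_mul_of_nonneg_right (le_abs_self _) (sq_nonneg _)
          _ ≤ |C| * ‖z - x‖ ^ 2 := mul_le_mul_of_nonneg_left h7 (abs_nonneg _)
      · rw [norm_zero]
        positivity
    rw [hasFDerivAt_iff_isLittleO]
    have hO : (fun z => Ext f z - Ext f x - (0 : ℝ × ℝ →L[ℝ] E) (z - x)) =O[𝓝 x]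
        fun z => ‖z - x‖ ^ 2 := by
      refine Asymptotics.IsBigO.of_bound |C| ?_
      filter_upwards [hb] with z hz
      rw [h3, sub_zero, ContinuousLinearMap.zero_apply, sub_zero, norm_pow, norm_norm]
      exact hz
    refine hO.trans_isLittleO ?_
    have h8 : (fun z : ℝ × ℝ => ‖z - x‖ ^ 2) = fun z => ‖z - x‖ * ‖z - x‖ := by
      funext z
      ring
    rw [h8]
    have h9 : (fun z : ℝ × ℝ => ‖z - x‖) =o[𝓝 x] fun _ => (1 : ℝ) := by
      rw [Asymptotics.isLittleO_one_iff]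
      have : Tendsto (fun z : ℝ × ℝ => ‖z - x‖) (𝓝 x) (𝓝 ‖x - x‖) :=
        ((continuous_id.sub continuous_const).norm).tendsto x
      rwa [sub_self, norm_zero] at this
    have h10 := h9.mul_isBigO (Asymptotics.isBigO_refl (fun z : ℝ × ℝ => ‖z - x‖) (𝓝 x))
    simp only [one_mul] at h10
    exact h10.trans_isBigO (Asymptotics.IsBigO.of_bound 1 (Eventually.of_forall fun z => by
      rw [norm_norm, one_mul]))
  · -- above the axis
    have hlog : Real.log x.2 / 2 < w₀ := by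
      have := (Real.log_lt_iff_lt_exp hx0).2 hx
      linarith
    have h1 : Ext f =ᶠ[𝓝 x] fun z => f (z.1, Real.log z.2 / 2) := by
      filter_upwards [(isOpen_lt continuous_const continuous_snd).mem_nhds hx0] with z hz
      have hz' : 0 < z.2 := hz
      unfold Ext
      rw [if_pos hz']
    have h2 : Ext (GX.Gd f) x = GX.Gd f (x.1, Real.log x.2 / 2) := by
      unfold Ext
      rw [if_pos hx0]
    rw [h2]
    refine HasFDerivAt.congr_of_eventuallyEq ?_ h1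
    have h3 : HasFDerivAt f (_root_.fderiv ℝ f (x.1, Real.log x.2 / 2)) (x.1, Real.log x.2 / 2) :=
      ((h.at hlog).differentiableAt (by simp)).hasFDerivAt
    have h4 : HasFDerivAt (fun z : ℝ × ℝ => Real.log z.2) (x.2⁻¹ • ContinuousLinearMap.snd ℝ ℝ ℝ) x :=
      (hasFDerivAt_snd (𝕜 := ℝ) (p := x)).log hx0.ne'
    have h5 : HasFDerivAt (fun z : ℝ × ℝ => Real.log z.2 / 2)
        ((2 : ℝ)⁻¹ • (x.2⁻¹ • ContinuousLinearMap.snd ℝ ℝ ℝ)) x := by
      have := h4.const_mul (2 : ℝ)⁻¹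
      refine this.congr_of_eventuallyEq (Eventually.of_forall fun z => ?_)
      ring
    have h6 : HasFDerivAt (fun z : ℝ × ℝ => (z.1, Real.log z.2 / 2))
        ((ContinuousLinearMap.fst ℝ ℝ ℝ).prod ((2 : ℝ)⁻¹ • (x.2⁻¹ • ContinuousLinearMap.snd ℝ ℝ ℝ))) x :=
      (hasFDerivAt_fst (𝕜 := ℝ) (p := x)).prodMk h5
    have h7 := HasFDerivAt.comp x h3 h6
    have h8 : (_root_.fderiv ℝ f (x.1, Real.log x.2 / 2)).comp
        ((ContinuousLinearMap.fst ℝ ℝ ℝ).prod ((2 : ℝ)⁻¹ • (x.2⁻¹ • ContinuousLinearMap.snd ℝ ℝ ℝ))) =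
        GX.Gd f (x.1, Real.log x.2 / 2) := by
      have he : ex (x.1, Real.log x.2 / 2) = x.2⁻¹ := by
        unfold ex
        have : -2 * (Real.log x.2 / 2) = -Real.log x.2 := by ring
        rw [this, Real.exp_neg, Real.exp_log hx0]
      refine ContinuousLinearMap.ext fun v => ?_
      unfold GX.Gd
      rw [he, ContinuousLinearMap.add_apply, ContinuousLinearMap.smul_apply,
        ContinuousLinearMap.comp_apply, ContinuousLinearMap.comp_apply,
        ContinuousLinearMap.comp_apply, ← map_smul, ← map_add]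
      congr 1
      refine Prod.ext ?_ ?_
      · show v.1 = v.1 + x.2⁻¹ * 0
        ring
      · show (2 : ℝ)⁻¹ * (x.2⁻¹ * v.2) = 0 + x.2⁻¹ * (1 / 2 * v.2)
        ring
    rw [← h8]
    exact h7

end

theorem Ext_contDiffOn (n : ℕ) : ∀ (E : Type) [NormedAddCommGroup E] [NormedSpace ℝ E] (w₀ : ℝ)
    (f : ℝ × ℝ → E), Cls w₀ f → ContDiffOn ℝ n (Ext f) (HP (Real.exp (2 * w₀))) := by
  induction n with
  | zero =>
    intro E _ _ w₀ f h
    rw [Nat.cast_zero, contDiffOn_zero]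
    exact fun x hx => (Ext_hasFDerivAt h hx).continuousAt.continuousWithinAt
  | succ n ih =>
    intro E _ _ w₀ f h
    rw [Nat.cast_succ, contDiffOn_succ_iff_fderiv_of_isOpen (isOpen_HP _)]
    refine ⟨fun x hx => (Ext_hasFDerivAt h hx).differentiableAt.differentiableWithinAt,
      fun hn => absurd hn (by simp), ?_⟩
    exact (ih (ℝ × ℝ →L[ℝ] E) w₀ (Gd f) h.Gd).congr fun x hx => (Ext_hasFDerivAt h hx).fderiv

theorem gx_FLATEXT : S_FLATEXT := by
  intro f w₀ hf hb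
  have h : Cls w₀ f := ⟨hf, hb⟩
  have := contDiffOn_infty.2 fun n => Ext_contDiffOn n ℝ w₀ f h
  exact this

end Pool.Agent.H383.GX
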